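import Pool.Agent.Helper76.TH7.StC7

/-!
# Project TH7, module E1AH7: even exponent, the plane functions of a balanced new symbol

The proof follows Pool/Agent/Helper11/TH/M_E1AH.lean.
-/

set_option autoImplicit false

namespace Pool.Agent.Helper69.TH7

open Pool.Agent.Helper76.TH7 Pool.Agent.Helper76.S7 Pool.Agent.Helper93.TLH
open Pool.Agent.Helper14.CV (Homog EqC act ne_zero_of_det)

private lemma z1 (j : ℕ) : (7 : ZMod (7 ^ (j + 1))) ^ (j + 1) = 0 := by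
  have h := ZMod.natCast_self (7 ^ (j + 1))
  push_cast at h
  exact h

private lemma z2 (j : ℕ) : (7 : ZMod (7 ^ (j + 1))) ^ (j + 2) = 0 := by
  rw [pow_succ (7 : ZMod (7 ^ (j + 1))) (j + 1), z1, zero_mul]

/-- `α + 49 γ x` is a unit -/
private lemma un (j : ℕ) {α β γ δ : ℤ} (h : α * δ - 49 * β * γ = 1 ∨ α * δ - 49 * β * γ = 2)
    (x : ZMod (7 ^ (j + 1))) :
    IsUnit ((α : ZMod (7 ^ (j + 1))) + 7 ^ (1 + 1) * γ * x) := by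
  obtain ⟨X, rfl⟩ := ZMod.intCast_surjective x
  have : IsUnit (((α + 7 ^ (1 + 1) * γ * X : ℤ) : ZMod (7 ^ (j + 1)))) := by
    rw [ZMod.coe_int_isUnit_iff_isCoprime]
    push_cast
    rcases h with h | h
    · exact IsCoprime.pow_left ⟨-7 * (β * γ) - 7 * (γ * X * δ), δ, by linear_combination h⟩
    · exact IsCoprime.pow_left ⟨1 + 21 * (β * γ) + 21 * (γ * X * δ), -3 * δ,
        by linear_combination -3 * h⟩
  push_cast at this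
  have e : (49 : ZMod (7 ^ (j + 1))) = 7 ^ (1 + 1) := by norm_num
  rwa [e] at this

private lemma two_unit (j : ℕ) : IsUnit (2 : ZMod (7 ^ (j + 1))) := by
  have := un j (α := 2) (β := 0) (γ := 0) (δ := 1) (Or.inr (by norm_num)) 0
  simpa using this

private lemma exM (hPlA : HPlA7) (j : ℕ) (x y : ZMod (7 ^ (j + 1))) :
    ∃ b c d : ℤ, PlH 1 1 b c d x y :=
  ⟨_, _, _, hPlA 1 (j + 1) (j + 1) x y⟩

/-- a matrix with upper left entry one is of the first type -/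
private lemma sd {q q' : ℕ} {b c d : ℤ} {x : ZMod q} {y : ZMod q'} (h : PlH 1 1 b c d x y) :
    d - 49 * b * c = 1 ∧ (∃ c', c = 2 * c') ∧ (b : ZMod q) = x ∧ (c : ZMod q') = y * d := by
  obtain ⟨h1, h2, h3⟩ := h
  rw [Int.cast_one, mul_one] at h2
  rcases h1 with ⟨h1, h4⟩ | ⟨-, h4, -, -⟩
  · refine ⟨by linear_combination h1, ?_, h2, h3⟩
    obtain ⟨e, he⟩ : ∃ e, c = 2 * e := ⟨c / 2, by omega⟩
    exact ⟨e, he⟩
  · exact absurd h4 (by norm_num)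

private lemma nz {a b c d : ℤ} (h : HTy a (7 ^ 1 * b) (7 * c) d) {u1 u2 : ℤ}
    (hu : u1 ≠ 0 ∨ u2 ≠ 0) : a * u1 + 7 ^ 1 * b * u2 ≠ 0 ∨ 7 * c * u1 + d * u2 ≠ 0 :=
  ne_zero_of_det (a := a) (b := 7 ^ 1 * b) (c := 7 * c) (d := d) h.det_ne hu

/-- the matrix `(1 7^(j+1) i; 0 1) g` -/
private lemma plT (j : ℕ) (i : ℤ) {b c d : ℤ} {x y : ZMod (7 ^ (j + 1))}
    (h : PlH 1 1 b c d x y) :
    PlH 1 (1 + 7 ^ (j + 2) * i * c) (b + 7 ^ j * i * d) c d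
      (x + (i : ZMod (7 ^ (j + 1))) * 7 ^ j) y := by
  obtain ⟨h1, ⟨c', hc'⟩, h2, h3⟩ := sd h
  have e : (d : ZMod (7 ^ (j + 1))) = 1 + 49 * b * c := by
    have := congrArg (Int.cast : ℤ → ZMod (7 ^ (j + 1))) h1
    push_cast at this
    linear_combination this
  refine ⟨Or.inl ⟨by linear_combination h1, ⟨7 * c', by rw [hc']; ring⟩⟩, ?_, h3⟩
  push_cast
  linear_combination h2 + (i : ZMod (7 ^ (j + 1))) * 7 ^ j * e +
    7 * (i : ZMod (7 ^ (j + 1))) * b * c * z1 j -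
    (x + i * 7 ^ j) * (i : ZMod (7 ^ (j + 1))) * (c : ZMod (7 ^ (j + 1))) * z2 j

/-- the matrix `(1 0; 2 i 7^(j+1) 1) g` -/
private lemma plL (j : ℕ) (i : ℤ) {b c d : ℤ} {x y : ZMod (7 ^ (j + 1))}
    (h : PlH 1 1 b c d x y) :
    PlH 1 1 b (c + 7 ^ j * (2 * i)) (d + 7 ^ (j + 2) * (2 * i) * b) x
      (y + ((2 * i : ℤ) : ZMod (7 ^ (j + 1))) * 7 ^ j) := by
  obtain ⟨h1, ⟨c', hc'⟩, h2, h3⟩ := sd h
  have e : (d : ZMod (7 ^ (j + 1))) = 1 + 49 * b * c := by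
    have := congrArg (Int.cast : ℤ → ZMod (7 ^ (j + 1))) h1
    push_cast at this
    linear_combination this
  refine ⟨Or.inl ⟨by linear_combination h1, ⟨7 * (c' + 7 ^ j * i), by rw [hc']; ring⟩⟩,
    by rw [h2, Int.cast_one, mul_one], ?_⟩
  push_cast
  linear_combination h3 - (2 * i : ZMod (7 ^ (j + 1))) * 7 ^ j * e -
    7 * (2 * i : ZMod (7 ^ (j + 1))) * b * c * z1 j -
    (y + 2 * i * 7 ^ j) * (2 * i : ZMod (7 ^ (j + 1))) * (b : ZMod (7 ^ (j + 1))) * z2 j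

/-- the matrix `g m` -/
private lemma plM {q : ℕ} {b c d α β γ δ : ℤ} {x y x' y' : ZMod q} (h : PlH 1 1 b c d x y)
    (hm : HTy α (7 * β) (7 * γ) δ)
    (hx : x' * (α + 49 * γ * x) = β + δ * x) (hy : y' * (δ + 49 * β * y) = γ + α * y) :
    PlH 1 (α + 49 * b * γ) (β + b * δ) (c * α + d * γ) (49 * c * β + d * δ) x' y' := by
  obtain ⟨h1, ⟨c', hc'⟩, h2, h3⟩ := sd h
  refine ⟨?_, ?_, ?_⟩
  · rcases hm with ⟨k1, k2⟩ | ⟨k1, k2, k3, k4⟩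
    · refine Or.inl ⟨by linear_combination (d - 49 * b * c) * k1 + h1, ?_⟩
      obtain ⟨e, he⟩ : ∃ e, γ = 2 * e := ⟨γ / 2, by omega⟩
      exact ⟨7 * (c' * α + d * e), by rw [hc', he]; ring⟩
    · obtain ⟨e, he⟩ : ∃ e, γ = 2 * e := ⟨γ / 2, by omega⟩
      obtain ⟨s, hs⟩ := k2
      obtain ⟨t, ht⟩ := k4
      refine Or.inr ⟨by linear_combination (d - 49 * b * c) * k1 + 2 * h1, ?_, ?_, ?_⟩
      · exact ⟨s + 49 * b * e, by rw [he, hs]; ring⟩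
      · exact ⟨7 * (c' * α + d * e), by rw [hc', he]; ring⟩
      · exact ⟨49 * c' * β + d * t, by rw [hc', ht]; ring⟩
  · push_cast
    rw [h2]
    linear_combination -hx
  · push_cast
    rw [h3]
    linear_combination -(d : ZMod q) * hy

section

variable {j : ℕ} {G : ℤ → ℤ → ℂ}

/-- the value of the symbol by any matrix with the given coordinates -/
private lemma ed (hEdg : HEdg7) (hS : SymH 7 (j + 2) (j + 2) G) {u1 u2 v1 v2 : ℤ}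
    (hu : u1 ≠ 0 ∨ u2 ≠ 0) (hv : v1 ≠ 0 ∨ v2 ≠ 0) {a b c d : ℤ} {x y : ZMod (7 ^ (j + 1))}
    (h : PlH 1 a b c d x y) :
    edgeH 1 u1 u2 v1 v2 G x y = G (a * u1 + 7 ^ 1 * b * u2) (7 * c * u1 + d * u2) -
      G (a * v1 + 7 ^ 1 * b * v2) (7 * c * v1 + d * v2) :=
  hEdg ℂ _ 1 (j + 1) (j + 1) G hS u1 u2 v1 v2 hu hv x y a b c d h

private lemma shx (hPlA : HPlA7) (hEdg : HEdg7) (hB : BalEH (j + 2) G) {u1 u2 v1 v2 : ℤ}
    (hu : u1 ≠ 0 ∨ u2 ≠ 0) (hv : v1 ≠ 0 ∨ v2 ≠ 0) (x y : ZMod (7 ^ (j + 1))) :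
    ∑ i ∈ Finset.range 7,
      edgeH 1 u1 u2 v1 v2 G (x + (i : ZMod (7 ^ (j + 1))) * 7 ^ j) y = 0 := by
  obtain ⟨hS, hT, -, -, -⟩ := hB
  obtain ⟨b, c, d, h⟩ := exM hPlA j x y
  have e := hT.diff (nz h.1 hu) (nz h.1 hv)
  simp only [Finset.sum_apply, act, Pi.zero_apply, sub_zero] at e
  rw [← Finset.sum_sub_distrib] at e
  rw [← e]
  refine Finset.sum_congr rfl fun i _ => ?_
  have g := plT j (i : ℤ) h
  rw [Int.cast_natCast] at g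
  rw [ed hEdg hS hu hv g]
  have ej : j + 2 - 1 = j + 1 := rfl
  rw [ej]
  congr 1 <;> congr 1 <;> ring

private lemma shy (hPlA : HPlA7) (hEdg : HEdg7) (hB : BalEH (j + 2) G) {u1 u2 v1 v2 : ℤ}
    (hu : u1 ≠ 0 ∨ u2 ≠ 0) (hv : v1 ≠ 0 ∨ v2 ≠ 0) (x y : ZMod (7 ^ (j + 1))) :
    ∑ i ∈ Finset.range 7,
      edgeH 1 u1 u2 v1 v2 G x (y + (i : ZMod (7 ^ (j + 1))) * 7 ^ j) = 0 := by
  obtain ⟨hS, -, hT, -, -⟩ := hB
  obtain ⟨b, c, d, h⟩ := exM hPlA j x y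
  have e := hT.diff (nz h.1 hu) (nz h.1 hv)
  simp only [Finset.sum_apply, act, Pi.zero_apply, sub_zero] at e
  rw [← Finset.sum_sub_distrib] at e
  have e2 : ∑ i ∈ Finset.range 7,
      edgeH 1 u1 u2 v1 v2 G x (y + ((2 * i : ℤ) : ZMod (7 ^ (j + 1))) * 7 ^ j) = 0 := by
    rw [← e]
    refine Finset.sum_congr rfl fun i _ => ?_
    have g := plL j (i : ℤ) h
    rw [ed hEdg hS hu hv g]
    have ej : j + 2 - 1 = j + 1 := rfl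
    rw [ej]
    congr 1 <;> congr 1 <;> ring
  have z := z1 j
  have a8 : y + ((8 : ℤ) : ZMod (7 ^ (j + 1))) * 7 ^ j = y + (1 : ZMod (7 ^ (j + 1))) * 7 ^ j := by
    push_cast
    linear_combination z
  have a10 : y + ((10 : ℤ) : ZMod (7 ^ (j + 1))) * 7 ^ j =
      y + (3 : ZMod (7 ^ (j + 1))) * 7 ^ j := by
    push_cast
    linear_combination z
  have a12 : y + ((12 : ℤ) : ZMod (7 ^ (j + 1))) * 7 ^ j =
      y + (5 : ZMod (7 ^ (j + 1))) * 7 ^ j := by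
    push_cast
    linear_combination z
  simp only [Finset.sum_range_succ, Finset.sum_range_zero, zero_add] at e2 ⊢
  norm_num at e2 a8 a10 a12 ⊢
  rw [a8, a10, a12] at e2
  linear_combination e2

/-- `G∘b ≈ -G`, `b = (0 1; 2 0)` -/
private lemma bq (hB : BalEH (j + 2) G) {s1 s2 t1 t2 : ℤ} (hs : s1 ≠ 0 ∨ s2 ≠ 0)
    (ht : t1 ≠ 0 ∨ t2 ≠ 0) :
    G s2 (2 * s1) - G t2 (2 * t1) = -(G s1 s2 - G t1 t2) := by
  obtain ⟨-, -, -, hW, hT⟩ := hB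
  have hs' : s2 ≠ 0 ∨ 2 * s1 ≠ 0 := by
    rcases hs with h | h
    · exact Or.inr (mul_ne_zero two_ne_zero h)
    · exact Or.inl h
  have ht' : t2 ≠ 0 ∨ 2 * t1 ≠ 0 := by
    rcases ht with h | h
    · exact Or.inr (mul_ne_zero two_ne_zero h)
    · exact Or.inl h
  have e := hW.diff hs ht
  have f := hT.diff hs' ht'
  simp only [act, Pi.neg_apply, zero_mul, zero_add, neg_mul, one_mul, add_zero] at e f
  linear_combination e - f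

private lemma sq (hB : BalEH (j + 2) G) {s1 s2 t1 t2 : ℤ} (hs : s1 ≠ 0 ∨ s2 ≠ 0)
    (ht : t1 ≠ 0 ∨ t2 ≠ 0) :
    G (-s1) s2 - G (-t1) t2 = G s1 s2 - G t1 t2 := by
  obtain ⟨-, -, -, -, hT⟩ := hB
  have f := hT.diff hs ht
  simp only [act, zero_mul, zero_add, neg_mul, one_mul, add_zero] at f
  exact f

private lemma nsw {s t : ℤ} (h : s ≠ 0 ∨ t ≠ 0) : t ≠ 0 ∨ 2 * s ≠ 0 := by
  rcases h with h | h
  · exact Or.inr (mul_ne_zero two_ne_zero h)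
  · exact Or.inl h

private lemma nng {s t : ℤ} (h : s ≠ 0 ∨ t ≠ 0) : -s ≠ 0 ∨ t ≠ 0 := by
  rcases h with h | h
  · exact Or.inl (neg_ne_zero.2 h)
  · exact Or.inr h

/-- conjugation by `b = (0 1; 2 0)` -/
private lemma sw_rw (hPlA : HPlA7) (hEdg : HEdg7) (hB : BalEH (j + 2) G) {u1 u2 v1 v2 : ℤ}
    (hu : u1 ≠ 0 ∨ u2 ≠ 0) (hv : v1 ≠ 0 ∨ v2 ≠ 0) (p : Pt (j + 1)) :
    edgeH 1 u1 u2 v1 v2 G (swH p).1 (swH p).2 =
      -edgeH 1 u2 (2 * u1) v2 (2 * v1) G p.1 p.2 := by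
  obtain ⟨b, c, d, h⟩ := exM hPlA j p.1 p.2
  obtain ⟨h1, ⟨c', hc'⟩, h2, h3⟩ := sd h
  have h' : PlH 1 d c' (2 * b) 1 (swH p).1 (swH p).2 := by
    refine ⟨Or.inl ⟨?_, ⟨7 * b, by ring⟩⟩, ?_, ?_⟩
    · rw [hc'] at h1
      linear_combination h1
    · show (c' : ZMod (7 ^ (j + 1))) = p.2 * (2 : ZMod (7 ^ (j + 1)))⁻¹ * (d : ZMod (7 ^ (j + 1)))
      have h2' := ZMod.inv_mul_of_unit _ (two_unit j)
      have h3' : (2 : ZMod (7 ^ (j + 1))) * c' = p.2 * d := by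
        rw [← h3, hc']
        push_cast
        ring
      linear_combination (2 : ZMod (7 ^ (j + 1)))⁻¹ * h3' - (c' : ZMod (7 ^ (j + 1))) * h2'
    · show ((2 * b : ℤ) : ZMod (7 ^ (j + 1))) = 2 * p.1 * ((1 : ℤ) : ZMod (7 ^ (j + 1)))
      push_cast
      rw [h2, mul_one]
  rw [ed hEdg hB.1 hu hv h', ed hEdg hB.1 (nsw hu) (nsw hv) h]
  have e := bq hB (nz h'.1 hu) (nz h'.1 hv)
  rw [hc']
  have e1 : ∀ s t : ℤ, 1 * t + 7 ^ 1 * b * (2 * s) = 7 * (2 * b) * s + 1 * t := by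
    intro s t; ring
  have e2 : ∀ s t : ℤ, 7 * (2 * c') * t + d * (2 * s) = 2 * (d * s + 7 ^ 1 * c' * t) := by
    intro s t; ring
  rw [e1, e2, e1, e2]
  linear_combination e

/-- conjugation by `*` -/
private lemma ng_rw (hPlA : HPlA7) (hEdg : HEdg7) (hB : BalEH (j + 2) G) {u1 u2 v1 v2 : ℤ}
    (hu : u1 ≠ 0 ∨ u2 ≠ 0) (hv : v1 ≠ 0 ∨ v2 ≠ 0) (p : Pt (j + 1)) :
    edgeH 1 u1 u2 v1 v2 G (ng p).1 (ng p).2 = edgeH 1 (-u1) u2 (-v1) v2 G p.1 p.2 := by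
  obtain ⟨b, c, d, h⟩ := exM hPlA j p.1 p.2
  obtain ⟨h1, ⟨c', hc'⟩, h2, h3⟩ := sd h
  have h' : PlH 1 1 (-b) (-c) d (ng p).1 (ng p).2 := by
    refine ⟨Or.inl ⟨by linear_combination h1, ⟨-(7 * c'), by rw [hc']; ring⟩⟩, ?_, ?_⟩
    · show ((-b : ℤ) : ZMod (7 ^ (j + 1))) = -p.1 * ((1 : ℤ) : ZMod (7 ^ (j + 1)))
      push_cast
      rw [h2, mul_one]
    · show ((-c : ℤ) : ZMod (7 ^ (j + 1))) = -p.2 * (d : ZMod (7 ^ (j + 1)))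
      push_cast
      rw [h3]
      ring
  rw [ed hEdg hB.1 hu hv h', ed hEdg hB.1 (nng hu) (nng hv) h]
  have e := sq hB (nz h.1 (nng hu)) (nz h.1 (nng hv))
  have e1 : ∀ s t : ℤ, 1 * s + 7 ^ 1 * -b * t = -(1 * -s + 7 ^ 1 * b * t) := by intro s t; ring
  have e2 : ∀ s t : ℤ, 7 * -c * s + d * t = 7 * c * -s + d * t := by intro s t; ring
  rw [e1, e2, e1, e2]
  exact e

/-- multiplication by a matrix on the right -/
private lemma rm (hPlA : HPlA7) (hEdg : HEdg7) (hB : BalEH (j + 2) G) {u1 u2 v1 v2 : ℤ}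
    (hu : u1 ≠ 0 ∨ u2 ≠ 0) (hv : v1 ≠ 0 ∨ v2 ≠ 0) {α β γ δ : ℤ}
    (hm : HTy α (7 * β) (7 * γ) δ) (p : Pt (j + 1)) :
    edgeH 1 u1 u2 v1 v2 G (trp 1 α β γ δ p).1 (trp 1 α β γ δ p).2 =
      edgeH 1 (α * u1 + 7 * β * u2) (7 * γ * u1 + δ * u2) (α * v1 + 7 * β * v2)
        (7 * γ * v1 + δ * v2) G p.1 p.2 := by
  obtain ⟨b, c, d, h⟩ := exM hPlA j p.1 p.2
  have hD : α * δ - 49 * β * γ = 1 ∨ α * δ - 49 * β * γ = 2 := by
    rcases hm with k | k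
    · exact Or.inl (by linear_combination k.1)
    · exact Or.inr (by linear_combination k.1)
  have hD' : δ * α - 49 * γ * β = 1 ∨ δ * α - 49 * γ * β = 2 := by
    rcases hD with k | k
    · exact Or.inl (by linear_combination k)
    · exact Or.inr (by linear_combination k)
  have hx : (trp 1 α β γ δ p).1 * ((α : ZMod (7 ^ (j + 1))) + 49 * γ * p.1) = β + δ * p.1 := by
    have := ZMod.inv_mul_of_unit _ (un j hD p.1)
    unfold trp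
    rw [mul_assoc]
    have e : (49 : ZMod (7 ^ (j + 1))) = 7 ^ (1 + 1) := by norm_num
    rw [e, this, mul_one]
  have hy : (trp 1 α β γ δ p).2 * ((δ : ZMod (7 ^ (j + 1))) + 49 * β * p.2) = γ + α * p.2 := by
    have := ZMod.inv_mul_of_unit _ (un j hD' p.2)
    unfold trp
    rw [mul_assoc]
    have e : (49 : ZMod (7 ^ (j + 1))) = 7 ^ (1 + 1) := by norm_num
    rw [e, this, mul_one]
  have h' := plM h hm hx hy
  have hdet : α * δ - 7 * β * (7 * γ) ≠ 0 := hm.det_ne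
  have hu' := ne_zero_of_det (a := α) (b := 7 * β) (c := 7 * γ) (d := δ) hdet hu
  have hv' := ne_zero_of_det (a := α) (b := 7 * β) (c := 7 * γ) (d := δ) hdet hv
  rw [ed hEdg hB.1 hu' hv' h, ed hEdg hB.1 hu hv h']
  congr 1 <;> congr 1 <;> ring

/-- circles: a matrix after `swH` -/
private lemma ci (hPlA : HPlA7) (hEdg : HEdg7) (hB : BalEH (j + 2) G) {α β γ δ : ℤ}
    (hm : HTy α (7 * β) (7 * γ) δ) {u1 u2 v1 v2 : ℤ}
    (hu : u1 ≠ 0 ∨ u2 ≠ 0) (hv : v1 ≠ 0 ∨ v2 ≠ 0) (p : Pt (j + 1)) :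
    edgeH 1 u1 u2 v1 v2 G (trp 1 α β γ δ (swH p)).1 (trp 1 α β γ δ (swH p)).2 =
      -edgeH 1 (7 * γ * u1 + δ * u2) (2 * (α * u1 + 7 * β * u2)) (7 * γ * v1 + δ * v2)
        (2 * (α * v1 + 7 * β * v2)) G p.1 p.2 := by
  have hdet : α * δ - 7 * β * (7 * γ) ≠ 0 := hm.det_ne
  rw [rm hPlA hEdg hB hu hv hm (swH p)]
  exact sw_rw hPlA hEdg hB
    (ne_zero_of_det (a := α) (b := 7 * β) (c := 7 * γ) (d := δ) hdet hu)
    (ne_zero_of_det (a := α) (b := 7 * β) (c := 7 * γ) (d := δ) hdet hv) p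

private lemma tyH : HTy 8 (7 * -1) (7 * 2) (-12) :=
  Or.inr ⟨by norm_num, by norm_num, by norm_num, by norm_num⟩

private lemma tyM : HTy 6 (7 * -1) (7 * 2) (-16) :=
  Or.inr ⟨by norm_num, by norm_num, by norm_num, by norm_num⟩

private lemma tyN : HTy 4 (7 * -1) (7 * 2) (-24) :=
  Or.inr ⟨by norm_num, by norm_num, by norm_num, by norm_num⟩

private lemma tyC : HTy 2 (7 * -1) (7 * 2) (-48) :=
  Or.inr ⟨by norm_num, by norm_num, by norm_num, by norm_num⟩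

private lemma tyG : HTy 5 (7 * -1) (7 * 4) (-39) :=
  Or.inl ⟨by norm_num, by norm_num⟩

private lemma tyD : HTy 3 (7 * -1) (7 * -2) 33 :=
  Or.inl ⟨by norm_num, by norm_num⟩

private lemma tyR : HTy 1 (7 * -1) (7 * 0) 1 :=
  Or.inl ⟨by norm_num, by norm_num⟩

private lemma tyE : HTy (-10) (7 * 1) (7 * 2) (-10) :=
  Or.inr ⟨by norm_num, by norm_num, by norm_num, by norm_num⟩

private lemma cH_rw (hPlA : HPlA7) (hEdg : HEdg7) (hB : BalEH (j + 2) G) {u1 u2 v1 v2 : ℤ}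
    (hu : u1 ≠ 0 ∨ u2 ≠ 0) (hv : v1 ≠ 0 ∨ v2 ≠ 0) (p : Pt (j + 1)) :
    edgeH 1 u1 u2 v1 v2 G (cHH p).1 (cHH p).2 =
      -edgeH 1 (7 * 2 * u1 + -12 * u2) (2 * (8 * u1 + 7 * -1 * u2)) (7 * 2 * v1 + -12 * v2)
        (2 * (8 * v1 + 7 * -1 * v2)) G p.1 p.2 :=
  ci hPlA hEdg hB tyH hu hv p

private lemma cM_rw (hPlA : HPlA7) (hEdg : HEdg7) (hB : BalEH (j + 2) G) {u1 u2 v1 v2 : ℤ}
    (hu : u1 ≠ 0 ∨ u2 ≠ 0) (hv : v1 ≠ 0 ∨ v2 ≠ 0) (p : Pt (j + 1)) :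
    edgeH 1 u1 u2 v1 v2 G (cMH p).1 (cMH p).2 =
      -edgeH 1 (7 * 2 * u1 + -16 * u2) (2 * (6 * u1 + 7 * -1 * u2)) (7 * 2 * v1 + -16 * v2)
        (2 * (6 * v1 + 7 * -1 * v2)) G p.1 p.2 :=
  ci hPlA hEdg hB tyM hu hv p

private lemma cN_rw (hPlA : HPlA7) (hEdg : HEdg7) (hB : BalEH (j + 2) G) {u1 u2 v1 v2 : ℤ}
    (hu : u1 ≠ 0 ∨ u2 ≠ 0) (hv : v1 ≠ 0 ∨ v2 ≠ 0) (p : Pt (j + 1)) :
    edgeH 1 u1 u2 v1 v2 G (cNH p).1 (cNH p).2 =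
      -edgeH 1 (7 * 2 * u1 + -24 * u2) (2 * (4 * u1 + 7 * -1 * u2)) (7 * 2 * v1 + -24 * v2)
        (2 * (4 * v1 + 7 * -1 * v2)) G p.1 p.2 :=
  ci hPlA hEdg hB tyN hu hv p

private lemma cC_rw (hPlA : HPlA7) (hEdg : HEdg7) (hB : BalEH (j + 2) G) {u1 u2 v1 v2 : ℤ}
    (hu : u1 ≠ 0 ∨ u2 ≠ 0) (hv : v1 ≠ 0 ∨ v2 ≠ 0) (p : Pt (j + 1)) :
    edgeH 1 u1 u2 v1 v2 G (cCH p).1 (cCH p).2 =
      -edgeH 1 (7 * 2 * u1 + -48 * u2) (2 * (2 * u1 + 7 * -1 * u2)) (7 * 2 * v1 + -48 * v2)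
        (2 * (2 * v1 + 7 * -1 * v2)) G p.1 p.2 :=
  ci hPlA hEdg hB tyC hu hv p

private lemma gl_rw (hPlA : HPlA7) (hEdg : HEdg7) (hB : BalEH (j + 2) G) {u1 u2 v1 v2 : ℤ}
    (hu : u1 ≠ 0 ∨ u2 ≠ 0) (hv : v1 ≠ 0 ∨ v2 ≠ 0) (p : Pt (j + 1)) :
    edgeH 1 u1 u2 v1 v2 G (glH p).1 (glH p).2 =
      -edgeH 1 (7 * 4 * u1 + -39 * u2) (2 * (5 * u1 + 7 * -1 * u2)) (7 * 4 * v1 + -39 * v2)
        (2 * (5 * v1 + 7 * -1 * v2)) G p.1 p.2 :=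
  ci hPlA hEdg hB tyG hu hv p

private lemma dl_rw (hPlA : HPlA7) (hEdg : HEdg7) (hB : BalEH (j + 2) G) {u1 u2 v1 v2 : ℤ}
    (hu : u1 ≠ 0 ∨ u2 ≠ 0) (hv : v1 ≠ 0 ∨ v2 ≠ 0) (p : Pt (j + 1)) :
    edgeH 1 u1 u2 v1 v2 G (dlH p).1 (dlH p).2 =
      -edgeH 1 (7 * -2 * u1 + 33 * u2) (2 * -(3 * u1 + 7 * -1 * u2)) (7 * -2 * v1 + 33 * v2)
        (2 * -(3 * v1 + 7 * -1 * v2)) G p.1 p.2 := by
  have hdet : (3 : ℤ) * 33 - 7 * -1 * (7 * -2) ≠ 0 := by norm_num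
  have hu' := ne_zero_of_det (a := (3 : ℤ)) (b := 7 * -1) (c := 7 * -2) (d := 33) hdet hu
  have hv' := ne_zero_of_det (a := (3 : ℤ)) (b := 7 * -1) (c := 7 * -2) (d := 33) hdet hv
  have r := rm hPlA hEdg hB hu hv tyD (ng (swH p))
  refine r.trans ?_
  rw [ng_rw hPlA hEdg hB hu' hv' (swH p)]
  exact sw_rw hPlA hEdg hB (nng hu') (nng hv') p

private lemma dR_rw (hPlA : HPlA7) (hEdg : HEdg7) (hB : BalEH (j + 2) G) {u1 u2 v1 v2 : ℤ}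
    (hu : u1 ≠ 0 ∨ u2 ≠ 0) (hv : v1 ≠ 0 ∨ v2 ≠ 0) (p : Pt (j + 1)) :
    edgeH 1 u1 u2 v1 v2 G (dR 1 p).1 (dR 1 p).2 =
      edgeH 1 (-(1 * u1 + 7 * -1 * u2)) (7 * 0 * u1 + 1 * u2) (-(1 * v1 + 7 * -1 * v2))
        (7 * 0 * v1 + 1 * v2) G p.1 p.2 := by
  have hdet : (1 : ℤ) * 1 - 7 * -1 * (7 * 0) ≠ 0 := by norm_num
  have r := rm hPlA hEdg hB hu hv tyR (ng p)
  refine r.trans ?_
  exact ng_rw hPlA hEdg hB (ne_zero_of_det hdet hu) (ne_zero_of_det hdet hv) p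

private lemma sE_rw (hPlA : HPlA7) (hEdg : HEdg7) (hB : BalEH (j + 2) G) {u1 u2 v1 v2 : ℤ}
    (hu : u1 ≠ 0 ∨ u2 ≠ 0) (hv : v1 ≠ 0 ∨ v2 ≠ 0) (p : Pt (j + 1)) :
    edgeH 1 u1 u2 v1 v2 G (sEH p).1 (sEH p).2 =
      edgeH 1 (-(-10 * u1 + 7 * 1 * u2)) (7 * 2 * u1 + -10 * u2) (-(-10 * v1 + 7 * 1 * v2))
        (7 * 2 * v1 + -10 * v2) G p.1 p.2 := by
  have hdet : (-10 : ℤ) * -10 - 7 * 1 * (7 * 2) ≠ 0 := by norm_num
  have r := rm hPlA hEdg hB hu hv tyE (ng p)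
  refine r.trans ?_
  exact ng_rw hPlA hEdg hB (ne_zero_of_det hdet hu) (ne_zero_of_det hdet hv) p

private lemma memA (hPlA : HPlA7) (hEdg : HEdg7) (hB : BalEH (j + 2) G) {u1 u2 v1 v2 : ℤ}
    (hu : u1 ≠ 0 ∨ u2 ≠ 0) (hv : v1 ≠ 0 ∨ v2 ≠ 0) :
    (fun p : Pt (j + 1) => edgeH 1 u1 u2 v1 v2 G p.1 p.2) ∈ anti7 (j + 1) :=
  fun p => ⟨shx hPlA hEdg hB hu hv p.1 p.2, shy hPlA hEdg hB hu hv p.1 p.2⟩

/-- the value at the cusp `u` -/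
private noncomputable def W (G : ℤ → ℤ → ℂ) {m : ℕ} (p : Pt m) (u1 u2 : ℤ) : ℂ :=
  G (u1 + 7 ^ 1 * (p.1.val : ℤ) * u2)
    (7 * rYH 1 p.1 p.2 * u1 + (1 + 7 ^ (1 + 1) * (p.1.val : ℤ) * rYH 1 p.1 p.2) * u2)

private lemma eW {m : ℕ} (p : Pt m) (u1 u2 v1 v2 : ℤ) :
    edgeH 1 u1 u2 v1 v2 G p.1 p.2 = W G p u1 u2 - W G p v1 v2 := rfl

private lemma Wsc (hPlA : HPlA7) (hB : BalEH (j + 2) G) (p : Pt (j + 1)) (k : ℤ) (hk : k ≠ 0)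
    (u1 u2 : ℤ) (hu : u1 ≠ 0 ∨ u2 ≠ 0) : W G p (k * u1) (k * u2) = W G p u1 u2 := by
  have h := nz (hPlA 1 (j + 1) (j + 1) p.1 p.2).1 hu
  have e := hB.1.1 k _ _ hk h
  unfold W
  have e1 : k * u1 + 7 ^ 1 * (p.1.val : ℤ) * (k * u2) = k * (1 * u1 + 7 ^ 1 * (p.1.val : ℤ) * u2) := by
    ring
  have e2 : 7 * rYH 1 p.1 p.2 * (k * u1) + (1 + 7 ^ (1 + 1) * (p.1.val : ℤ) * rYH 1 p.1 p.2) * (k * u2)
      = k * (7 * rYH 1 p.1 p.2 * u1 + (1 + 7 ^ (1 + 1) * (p.1.val : ℤ) * rYH 1 p.1 p.2) * u2) := by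
    ring
  rw [e1, e2, e, one_mul]

private lemma relf (hPlA : HPlA7) (hEdg : HEdg7) (hB : BalEH (j + 2) G) (p : Pt (j + 1)) :
    edgeH 1 1 0 0 1 G (ng p).1 (ng p).2 = 1 * edgeH 1 1 0 0 1 G p.1 p.2 ∧
    edgeH 1 1 0 0 1 G (swH p).1 (swH p).2 = 1 * edgeH 1 1 0 0 1 G p.1 p.2 := by
  rw [ng_rw hPlA hEdg hB (by norm_num) (by norm_num) p,
    sw_rw hPlA hEdg hB (by norm_num) (by norm_num) p]
  simp only [eW]
  have s := Wsc hPlA hB p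
  have a1 := s (-1) (by norm_num) 1 0 (by norm_num)
  have a2 := s 2 (by norm_num) 0 1 (by norm_num)
  norm_num at a1 a2 ⊢
  rw [a1, a2]
  exact ⟨rfl, by ring⟩

private lemma relH (hPlA : HPlA7) (hEdg : HEdg7) (hB : BalEH (j + 2) G) (p : Pt (j + 1)) :
    edgeH 1 1 1 3 4 G (cHH p).1 (cHH p).2 = -1 * edgeH 1 1 1 3 4 G p.1 p.2 ∧
    edgeH 1 1 1 3 4 G (sEH p).1 (sEH p).2 = -1 * edgeH 1 1 1 3 4 G p.1 p.2 := by
  rw [cH_rw hPlA hEdg hB (by norm_num) (by norm_num) p,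
    sE_rw hPlA hEdg hB (by norm_num) (by norm_num) p]
  simp only [eW]
  have s := Wsc hPlA hB p
  have a1 := s 2 (by norm_num) 1 1 (by norm_num)
  have a2 := s (-2) (by norm_num) 3 4 (by norm_num)
  norm_num at a1 a2 ⊢
  rw [a1, a2]
  exact ⟨by ring, by ring⟩

private lemma relM (hPlA : HPlA7) (hEdg : HEdg7) (hB : BalEH (j + 2) G) (p : Pt (j + 1)) :
    edgeH 1 1 1 4 3 G (cMH p).1 (cMH p).2 = -1 * edgeH 1 1 1 4 3 G p.1 p.2 := by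
  rw [cM_rw hPlA hEdg hB (by norm_num) (by norm_num) p]
  simp only [eW]
  have s := Wsc hPlA hB p
  have a1 := s (-2) (by norm_num) 1 1 (by norm_num)
  have a2 := s 2 (by norm_num) 4 3 (by norm_num)
  norm_num at a1 a2 ⊢
  rw [a1, a2]

private lemma relN (hPlA : HPlA7) (hEdg : HEdg7) (hB : BalEH (j + 2) G) (p : Pt (j + 1)) :
    edgeH 1 3 2 2 1 G (cNH p).1 (cNH p).2 = -1 * edgeH 1 3 2 2 1 G p.1 p.2 := by
  rw [cN_rw hPlA hEdg hB (by norm_num) (by norm_num) p]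
  simp only [eW]
  have s := Wsc hPlA hB p
  have a1 := s (-2) (by norm_num) 3 2 (by norm_num)
  have a2 := s 2 (by norm_num) 2 1 (by norm_num)
  norm_num at a1 a2 ⊢
  rw [a1, a2]

private lemma relD (hPlA : HPlA7) (hEdg : HEdg7) (hB : BalEH (j + 2) G) (p : Pt (j + 1)) :
    edgeH 1 2 1 5 2 G (dlH p).1 (dlH p).2 = 1 * edgeH 1 2 1 5 2 G p.1 p.2 := by
  rw [dl_rw hPlA hEdg hB (by norm_num) (by norm_num) p]
  simp only [eW]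
  have s := Wsc hPlA hB p
  have a1 := s (-2) (by norm_num) 2 1 (by norm_num)
  norm_num at a1 ⊢
  rw [a1]

/-- the octagon -/
private lemma relK (hPlA : HPlA7) (hEdg : HEdg7) (hB : BalEH (j + 2) G) (p : Pt (j + 1)) :
    edgeH 1 1 0 1 1 G p.1 p.2 + edgeH 1 1 0 1 1 G (swH p).1 (swH p).2 -
      edgeH 1 1 0 1 1 G (sEH p).1 (sEH p).2 -
      edgeH 1 1 0 1 1 G (swH (sEH p)).1 (swH (sEH p)).2 +
      edgeH 1 1 0 0 1 G (sEH p).1 (sEH p).2 - edgeH 1 1 0 0 1 G p.1 p.2 +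
      edgeH 1 1 1 3 4 G p.1 p.2 + edgeH 1 1 1 3 4 G (swH p).1 (swH p).2 = 0 := by
  rw [sw_rw hPlA hEdg hB (by norm_num) (by norm_num) (sEH p),
    sw_rw hPlA hEdg hB (u1 := 1) (u2 := 0) (by norm_num) (by norm_num) p,
    sw_rw hPlA hEdg hB (u1 := 1) (u2 := 1) (by norm_num) (by norm_num) p,
    sE_rw hPlA hEdg hB (v1 := 1) (v2 := 1) (by norm_num) (by norm_num) p,
    sE_rw hPlA hEdg hB (v1 := 0) (v2 := 1) (by norm_num) (by norm_num) p,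
    sE_rw hPlA hEdg hB (by norm_num) (by norm_num) p]
  simp only [eW]
  norm_num
  have s := Wsc hPlA hB p
  have a1 := s 2 (by norm_num) 5 7 (by norm_num)
  have a2 := s (-2) (by norm_num) 7 10 (by norm_num)
  have a3 := s (-1) (by norm_num) 7 10 (by norm_num)
  have a4 := s (-2) (by norm_num) 2 3 (by norm_num)
  have a5 := s 2 (by norm_num) 2 3 (by norm_num)
  have a6 := s 2 (by norm_num) 0 1 (by norm_num)
  norm_num at a1 a2 a3 a4 a5 a6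
  rw [a1, a2, a3, a4, a5, a6]
  ring

/-- the sum of the edges is the path from `∞` to `3` -/
private lemma relSS (hPlA : HPlA7) (hEdg : HEdg7) (hB : BalEH (j + 2) G) (p : Pt (j + 1)) :
    SS (fun p : Pt (j + 1) => edgeH 1 1 0 1 1 G p.1 p.2)
      (fun p : Pt (j + 1) => edgeH 1 1 1 4 3 G p.1 p.2)
      (fun p : Pt (j + 1) => edgeH 1 4 3 3 2 G p.1 p.2)
      (fun p : Pt (j + 1) => edgeH 1 3 2 2 1 G p.1 p.2)
      (fun p : Pt (j + 1) => edgeH 1 2 1 5 2 G p.1 p.2) p = edgeH 1 1 0 3 1 G p.1 p.2 := by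
  change edgeH 1 1 0 1 1 G p.1 p.2 + edgeH 1 1 1 4 3 G p.1 p.2 + edgeH 1 4 3 3 2 G p.1 p.2 +
    edgeH 1 3 2 2 1 G p.1 p.2 + edgeH 1 2 1 5 2 G p.1 p.2 -
    edgeH 1 4 3 3 2 G (glH p).1 (glH p).2 = edgeH 1 1 0 3 1 G p.1 p.2
  rw [gl_rw hPlA hEdg hB (by norm_num) (by norm_num) p]
  simp only [eW]
  norm_num
  have s := Wsc hPlA hB p
  have a1 := s (-1) (by norm_num) 5 2 (by norm_num)
  have a2 := s 2 (by norm_num) 3 1 (by norm_num)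
  norm_num at a1 a2
  rw [a1, a2]
  ring

private lemma relS (hPlA : HPlA7) (hEdg : HEdg7) (hB : BalEH (j + 2) G) (p : Pt (j + 1)) :
    edgeH 1 1 0 3 1 G p.1 p.2 + edgeH 1 1 0 3 1 G (cCH p).1 (cCH p).2 -
      edgeH 1 1 0 3 1 G (dR 1 p).1 (dR 1 p).2 -
      edgeH 1 1 0 3 1 G (dR 1 (cCH p)).1 (dR 1 (cCH p)).2 = 0 := by
  rw [cC_rw hPlA hEdg hB (by norm_num) (by norm_num) p,
    dR_rw hPlA hEdg hB (by norm_num) (by norm_num) p,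
    dR_rw hPlA hEdg hB (by norm_num) (by norm_num) (cCH p),
    cC_rw hPlA hEdg hB (by norm_num) (by norm_num) p]
  simp only [eW]
  norm_num
  have s := Wsc hPlA hB p
  have a1 := s (-2) (by norm_num) 3 1 (by norm_num)
  have a2 := s 2 (by norm_num) 7 2 (by norm_num)
  have a3 := s (-1) (by norm_num) 1 0 (by norm_num)
  have a4 := s 2 (by norm_num) 4 1 (by norm_num)
  have a5 := s (-2) (by norm_num) 7 2 (by norm_num)
  norm_num at a1 a2 a3 a4 a5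
  rw [a1, a2, a3, a4, a5]
  ring

private lemma memE (hPlA : HPlA7) (hEdg : HEdg7) (hB : BalEH (j + 2) G) :
    (((fun p : Pt (j + 1) => edgeH 1 1 0 0 1 G p.1 p.2),
      (fun p : Pt (j + 1) => edgeH 1 1 1 3 4 G p.1 p.2)),
    ((fun p : Pt (j + 1) => edgeH 1 1 0 1 1 G p.1 p.2),
      (fun p : Pt (j + 1) => edgeH 1 1 1 4 3 G p.1 p.2)),
    ((fun p : Pt (j + 1) => edgeH 1 4 3 3 2 G p.1 p.2),
      (fun p : Pt (j + 1) => edgeH 1 3 2 2 1 G p.1 p.2),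
      (fun p : Pt (j + 1) => edgeH 1 2 1 5 2 G p.1 p.2))) ∈ subEH (j + 1) := by
  refine ⟨⟨memA hPlA hEdg hB (by norm_num) (by norm_num), fun p => relf hPlA hEdg hB p⟩,
    ⟨memA hPlA hEdg hB (by norm_num) (by norm_num), fun p => relH hPlA hEdg hB p⟩,
    memA hPlA hEdg hB (by norm_num) (by norm_num),
    ⟨memA hPlA hEdg hB (by norm_num) (by norm_num), fun p => relM hPlA hEdg hB p⟩,
    memA hPlA hEdg hB (by norm_num) (by norm_num),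
    ⟨memA hPlA hEdg hB (by norm_num) (by norm_num), fun p => relN hPlA hEdg hB p⟩,
    ⟨memA hPlA hEdg hB (by norm_num) (by norm_num), fun p => relD hPlA hEdg hB p⟩,
    fun p => relK hPlA hEdg hB p, fun p => ?_⟩
  have e := relS hPlA hEdg hB p
  rw [← relSS hPlA hEdg hB p, ← relSS hPlA hEdg hB (cCH p), ← relSS hPlA hEdg hB (dR 1 p),
    ← relSS hPlA hEdg hB (dR 1 (cCH p))] at e
  exact e

end

/-- Module E1AH7. -/
theorem hE1AH7 : StHE1a7 := by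
  intro he ha _ k G hk hB
  obtain ⟨j, rfl⟩ : ∃ j, k = j + 2 := ⟨k - 2, by omega⟩
  exact memE ha he hB

end Pool.Agent.Helper69.TH7
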