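import Pool.Agent.Helper14.TH7.StD
import Pool.Agent.Helper93.TLH.GenN

/-!
# Project TH7: the rows of the Hecke operators `T_13`, `T_17`, `T_19`

Model: `Pool/Agent/Helper4/TH/M_Hk.lean`.
-/

set_option autoImplicit false
set_option maxRecDepth 100000

namespace Pool.Agent.Helper69.TH7

open Pool.Agent.Helper14.CV (Homog EqC act Tl StFar StFex)
open Pool.Agent.Helper4.S7 (Tm mulL sclL Gd pj S7Pj)
open Pool.Agent.Helper76.TH7 (PlH rYH edgeH HPlA7 HEdg7 ddH7)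
open Pool.Agent.Helper84.S7
open Pool.Agent.Helper93.TLH (HTy SymH ChkN row_of_chkN B4)
open Pool.Agent.Helper14.TH7

private theorem opL_apply7 (L : List Tm) {q q' : ℕ} (F : Fn7 q q') (x : ZMod q) (y : ZMod q') :
    opL L F x y = (L.map fun t => t.1 • tr7 t.2.1 t.2.2.1 t.2.2.2.1 t.2.2.2.2 F x y).sum := by
  induction L with
  | nil => simp [opL]
  | cons t L ih =>
    have e : opL (t :: L) F x y = (((t.1 : ℤ) : ZMod 7) • op7 t.2.1 t.2.2.1 t.2.2.2.1 t.2.2.2.2) F x y +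
        opL L F x y := by
      simp [opL]
    rw [e, ih, List.map_cons, List.sum_cons, zsmul_eq_mul]
    rfl

/-- the list of the terms with their basic paths -/
private def TT3 (L0 L1 L2 : List Tm) : List (B4 × Tm) :=
  (L0.map fun t => ((1, 0, 0, 1), t)) ++ (L1.map fun t => ((1, 2, 0, 1), t)) ++
    (L2.map fun t => ((1, 4, 0, 1), t))

private theorem row7 (hf : THkF) (ht : TTre) (hm : S7Trm) (l : ℕ) (hl : l.Prime) (hl7 : l ≠ 7)
    (hl2 : l ≠ 2) (J : List ℤ) (hJn : J.Nodup) (hJl : J.length = l)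
    (hJd : ∀ j ∈ J, ∀ j' ∈ J, (l : ℤ) ∣ j - j' → j = j')
    (u1 u2 v1 v2 : ℤ) (hu : u1 ≠ 0 ∨ u2 ≠ 0) (hv : v1 ≠ 0 ∨ v2 ≠ 0) (L0 L1 L2 : List Tm)
    (hc : ChkN 1 7 l J u1 u2 v1 v2 (TT3 L0 L1 L2))
    (r s : ℕ) (G : ℤ → ℤ → ZMod 7) (hG : SymH 7 r (s + 1) G) :
    (edgeH 0 u1 u2 v1 v2 (Tl l (7 ^ r) G) : Fn7 (7 ^ r) (7 ^ s)) =
      opL L0 (pfH G 0) + opL L1 (pfH G 1) + opL L2 (pfH G 2) := by
  funext x y
  have hl0 : (l : ℤ) ≠ 0 := by exact_mod_cast hl.ne_zero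
  have hpl : ¬ (7 : ℤ) ∣ (l : ℤ) := by
    intro h
    have h' : (7 : ℕ) ∣ l := by exact_mod_cast h
    exact hl7 (((Nat.prime_dvd_prime_iff_eq (by norm_num) hl).1 h').symm)
  have hF := hf (ZMod 7) inferInstance r s l G J.toFinset hl hl7 hl2 hG
    (by rw [List.toFinset_card_of_nodup hJn, hJl])
    (fun j hj j' hj' => hJd j (List.mem_toFinset.1 hj) j' (List.mem_toFinset.1 hj'))
    u1 u2 v1 v2 hu hv x y
  rw [List.sum_toFinset _ hJn] at hF
  have key := row_of_chkN (R := ZMod 7) (X := ZMod (7 ^ r) × ZMod (7 ^ s)) 7 1 7 l hl0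
    (by norm_num) hpl (by norm_num) (by norm_num) J
    (fun a b c d F z => tr7 a b c d (fun x y => F (x, y)) z.1 z.2)
    (fun a b c d => ⟨fun z => (((b : ZMod (7 ^ r)) + d * z.1) * ((a : ZMod (7 ^ r)) + 7 * c * z.1)⁻¹,
      ((c : ZMod (7 ^ s)) + a * z.2) * ((d : ZMod (7 ^ s)) + 7 * b * z.2)⁻¹), fun F z => rfl⟩)
    (fun F a b c d a' b' c' d' ha hd ha' hd' => by
      funext z
      have h := (hm (ZMod 7) r s (fun x y => F (x, y))).1 a b c d a' b' c' d' ha hd ha' hd'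
      have e1 : (1 : ℤ) * 7 = 7 := by norm_num
      rw [e1]
      exact congrFun (congrFun h z.1) z.2)
    (fun u1 u2 v1 v2 z => edgeH 0 u1 u2 v1 v2 G z.1 z.2) G hG.1
    (fun z => ⟨1, 1, (z.1.val : ℤ), 7 * rYH 0 z.1 z.2,
      1 + 7 ^ (0 + 1) * (z.1.val : ℤ) * rYH 0 z.1 z.2, by
        have : (1 : ℤ) * (1 + 7 ^ (0 + 1) * (z.1.val : ℤ) * rYH 0 z.1 z.2) -
          (z.1.val : ℤ) * (7 * rYH 0 z.1 z.2) = 1 := by ring
        rw [this]; exact one_ne_zero,
      fun u1 u2 v1 v2 => by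
        unfold edgeH
        simp only [one_mul, one_smul, pow_zero]⟩)
    (fun a b c d u1 u2 v1 v2 hd hu hv z => by
      rw [one_mul] at hd
      have h := ht (ZMod 7) inferInstance r s G hG a b c d u1 u2 v1 v2 hd hu hv z.1 z.2
      simp only [one_mul]
      exact h)
    u1 u2 v1 v2 (TT3 L0 L1 L2) hc
    (edgeH 0 u1 u2 v1 v2 (Tl l (7 ^ r) G) x y) (x, y) (by
      rw [hF]
      simp only [one_mul])
  rw [key]
  show _ = opL L0 (pfH G 0) x y + opL L1 (pfH G 1) x y + opL L2 (pfH G 2) x y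
  rw [opL_apply7, opL_apply7, opL_apply7]
  unfold TT3
  rw [List.map_append, List.map_append, List.sum_append, List.sum_append, List.map_map,
    List.map_map, List.map_map]
  rfl

/-- HK13. -/
theorem hHk13 (hf : THkF) (ht : TTre) (hm : S7Trm) : THk 13 T13H := by
  intro r s G hG i
  rw [Fin.sum_univ_three]
  fin_cases i
  · exact row7 hf ht hm 13 (by norm_num) (by norm_num) (by norm_num)
      [-6, -5, -4, -3, -2, -1, 0, 1, 2, 3, 4, 5, 6]
      (by decide) rfl (by decide +kernel) 1 0 0 1 (Or.inl one_ne_zero) (Or.inr one_ne_zero)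
      (T13H 0 0) (T13H 0 1) (T13H 0 2) (by decide +kernel) r s G hG
  · exact row7 hf ht hm 13 (by norm_num) (by norm_num) (by norm_num)
      [-6, -5, -4, -3, -2, -1, 0, 1, 2, 3, 4, 5, 6]
      (by decide) rfl (by decide +kernel) 1 2 0 1 (Or.inl one_ne_zero) (Or.inr one_ne_zero)
      (T13H 1 0) (T13H 1 1) (T13H 1 2) (by decide +kernel) r s G hG
  · exact row7 hf ht hm 13 (by norm_num) (by norm_num) (by norm_num)
      [-6, -5, -4, -3, -2, -1, 0, 1, 2, 3, 4, 5, 6]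
      (by decide) rfl (by decide +kernel) 1 4 0 1 (Or.inl one_ne_zero) (Or.inr one_ne_zero)
      (T13H 2 0) (T13H 2 1) (T13H 2 2) (by decide +kernel) r s G hG

/-- HK17. -/
theorem hHk17 (hf : THkF) (ht : TTre) (hm : S7Trm) : THk 17 T17H := by
  intro r s G hG i
  rw [Fin.sum_univ_three]
  fin_cases i
  · exact row7 hf ht hm 17 (by norm_num) (by norm_num) (by norm_num)
      [-8, -7, -6, -5, -4, -3, -2, -1, 0, 1, 2, 3, 4, 5, 6, 7, 8]
      (by decide +kernel) rfl (by decide +kernel) 1 0 0 1 (Or.inl one_ne_zero)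
      (Or.inr one_ne_zero) (T17H 0 0) (T17H 0 1) (T17H 0 2) (by decide +kernel) r s G hG
  · exact row7 hf ht hm 17 (by norm_num) (by norm_num) (by norm_num)
      [-8, -7, -6, -5, -4, -3, -2, -1, 0, 1, 2, 3, 4, 5, 6, 7, 8]
      (by decide +kernel) rfl (by decide +kernel) 1 2 0 1 (Or.inl one_ne_zero)
      (Or.inr one_ne_zero) (T17H 1 0) (T17H 1 1) (T17H 1 2) (by decide +kernel) r s G hG
  · exact row7 hf ht hm 17 (by norm_num) (by norm_num) (by norm_num)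
      [-8, -7, -6, -5, -4, -3, -2, -1, 0, 1, 2, 3, 4, 5, 6, 7, 8]
      (by decide +kernel) rfl (by decide +kernel) 1 4 0 1 (Or.inl one_ne_zero)
      (Or.inr one_ne_zero) (T17H 2 0) (T17H 2 1) (T17H 2 2) (by decide +kernel) r s G hG

/-- HK19. -/
theorem hHk19 (hf : THkF) (ht : TTre) (hm : S7Trm) : THk 19 T19H := by
  intro r s G hG i
  rw [Fin.sum_univ_three]
  fin_cases i
  · exact row7 hf ht hm 19 (by norm_num) (by norm_num) (by norm_num)
      [-9, -8, -7, -6, -5, -4, -3, -2, -1, 0, 1, 2, 3, 4, 5, 6, 7, 8, 9]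
      (by decide +kernel) rfl (by decide +kernel) 1 0 0 1 (Or.inl one_ne_zero)
      (Or.inr one_ne_zero) (T19H 0 0) (T19H 0 1) (T19H 0 2) (by decide +kernel) r s G hG
  · exact row7 hf ht hm 19 (by norm_num) (by norm_num) (by norm_num)
      [-9, -8, -7, -6, -5, -4, -3, -2, -1, 0, 1, 2, 3, 4, 5, 6, 7, 8, 9]
      (by decide +kernel) rfl (by decide +kernel) 1 2 0 1 (Or.inl one_ne_zero)
      (Or.inr one_ne_zero) (T19H 1 0) (T19H 1 1) (T19H 1 2) (by decide +kernel) r s G hG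
  · exact row7 hf ht hm 19 (by norm_num) (by norm_num) (by norm_num)
      [-9, -8, -7, -6, -5, -4, -3, -2, -1, 0, 1, 2, 3, 4, 5, 6, 7, 8, 9]
      (by decide +kernel) rfl (by decide +kernel) 1 4 0 1 (Or.inl one_ne_zero)
      (Or.inr one_ne_zero) (T19H 2 0) (T19H 2 1) (T19H 2 2) (by decide +kernel) r s G hG

end Pool.Agent.Helper69.TH7
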